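import Pool.Agent.H817R5.EP.Stubs

/-!
# CNT: counting in an interval
-/

set_option autoImplicit false

open Finset

namespace Pool.Agent.H854R5.EP

open Pool.Agent.H817R5.EP

theorem ind_eq_prod (a : ℕ → ℕ) (T : Finset ℕ) (n : ℕ) :
    ind a T n = ∏ q ∈ T, (if n % q ^ 2 < a q then (1 : ℝ) else 0) := by
  unfold ind
  split_ifs with h
  · rw [Finset.prod_congr rfl (fun q hq => if_pos (h q hq)), Finset.prod_const_one]
  · push Not at h
    obtain ⟨q, hq, hq'⟩ := h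
    exact (Finset.prod_eq_zero hq (if_neg (not_lt.mpr hq'))).symm

theorem ind_nonneg (a : ℕ → ℕ) (T : Finset ℕ) (n : ℕ) : 0 ≤ ind a T n := by
  unfold ind
  split_ifs <;> norm_num

theorem ind_mod (a : ℕ → ℕ) (T : Finset ℕ) (n : ℕ) :
    ind a T (n % ∏ q ∈ T, q ^ 2) = ind a T n := by
  rw [ind_eq_prod, ind_eq_prod]
  refine Finset.prod_congr rfl fun q hq => ?_
  rw [Nat.mod_mod_of_dvd n (Finset.dvd_prod_of_mem (fun q => q ^ 2) hq)]

theorem sum_one (q b : ℕ) (hb : b ≤ q ^ 2) :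
    ∑ y ∈ range (q ^ 2), (if y % q ^ 2 < b then (1 : ℝ) else 0) = b := by
  have h1 : ∑ y ∈ range (q ^ 2), (if y % q ^ 2 < b then (1 : ℝ) else 0) =
      ∑ y ∈ range (q ^ 2), (if y < b then (1 : ℝ) else 0) := by
    refine Finset.sum_congr rfl fun y hy => ?_
    rw [Nat.mod_eq_of_lt (mem_range.mp hy)]
  rw [h1, ← Finset.sum_filter, Finset.sum_const, nsmul_eq_mul, mul_one]
  have h2 : (range (q ^ 2)).filter (fun y => y < b) = range b := by
    ext y
    rw [mem_filter, mem_range, mem_range]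
    omega
  rw [h2, card_range]

theorem cnt (hcrt : St_CRT) (hper : St_PER) : St_CNT := by
  intro a P T z X0 X hadm hTP
  have hp : ∀ q ∈ T, q.Prime := fun q hq => (hadm q (hTP hq)).1
  have hQ : 0 < ∏ q ∈ T, q ^ 2 := Finset.prod_pos fun q hq => pow_pos (hp q hq).pos 2
  have hsum : ∑ y ∈ range (∏ q ∈ T, q ^ 2), ind a T y = ∏ q ∈ T, (a q : ℝ) := by
    have h1 := hcrt T (fun q n => if n % q ^ 2 < a q then (1 : ℝ) else 0) hp
      (fun q _ n => by rw [Nat.mod_mod])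
    rw [Finset.sum_congr rfl fun y _ => ind_eq_prod a T y, h1]
    refine Finset.prod_congr rfl fun q hq => ?_
    obtain ⟨hq1, -, -, hq4⟩ := hadm q (hTP hq)
    refine sum_one q (a q) ?_
    have := hq1.two_le
    nlinarith
  have h2 := (hper (∏ q ∈ T, q ^ 2) X0 X (ind a T) hQ (ind_mod a T)).2.1 (ind_nonneg a T)
  rw [hsum] at h2
  have h3 : (X : ℝ) / ((∏ q ∈ T, q ^ 2 : ℕ) : ℝ) * ∏ q ∈ T, (a q : ℝ) = X * den a T := by
    unfold den
    rw [Finset.prod_div_distrib]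
    push_cast
    ring
  rw [h3] at h2
  exact h2

end Pool.Agent.H854R5.EP
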